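import Pool.Agent.LadderVeech.Main
import Pool.Agent.LadderVeech.Transport

/-!
# Veech groups of translation structures on the ladder surface

`S` is any topological space homeomorphic to the ladder surface, `ω` any translation structure
on it (no completeness, area or tameness condition) and `G = veechGroup ω` its Veech group.
-/

open Set Filter Topology
open scoped commutatorElement

namespace Pool.Agent.Results.MP_7193b8_gt.LadderVeechGroups

open LadderVeech

/-- **Structure of the Veech groups of the ladder surface.** Let `G` be the Veech group of an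
arbitrary translation structure on the ladder surface. There are subgroups `N ≤ G₁ ≤ G` such that
`[G : G₁] ≤ 2`, `N` is normal in `G₁` with cyclic quotient, `N` is closed in `GL(2, ℝ)` and
bounded away from `0`; moreover `G` is discrete or `G₁` is metabelian. -/
theorem result {S : Type*} [TopologicalSpace S] (e : S ≃ₜ Ladder) (ω : TranslationStructure S) :
    ∃ G₁ N : Subgroup (GL (Fin 2) ℝ), N ≤ G₁ ∧ G₁ ≤ veechGroup ω ∧
      (∀ A ∈ veechGroup ω, ∀ B ∈ veechGroup ω, A ∉ G₁ → B ∉ G₁ → A * B ∈ G₁) ∧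
      (∀ A ∈ G₁, ∀ B ∈ N, A * B * A⁻¹ ∈ N) ∧
      (∃ T ∈ G₁, ∀ A ∈ G₁, ∃ k : ℤ, A * T ^ k ∈ N) ∧
      IsClosed (N : Set (GL (Fin 2) ℝ)) ∧
      (∃ c > 0, ∀ A ∈ N, c ≤ |A 0 0| + |A 0 1| + |A 1 0| + |A 1 1|) ∧
      ((∃ U ∈ 𝓝 (1 : GL (Fin 2) ℝ), ∀ A ∈ veechGroup ω, A ∈ U → A = 1) ∨
        ∀ A ∈ G₁, ∀ B ∈ G₁, ∀ C ∈ G₁, ∀ D ∈ G₁, ⁅⁅A, B⁆, ⁅C, D⁆⁆ = 1) := by
  rw [← veechGroup_transport e ω]
  exact main_structure (ω.transport e)

end Pool.Agent.Results.MP_7193b8_gt.LadderVeechGroups
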