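import Pool.Agent.LadderVeech.LV34
import Pool.Agent.LadderVeech.LV50

/-!
# The uncountable Veech groups of the ladder surface

`S` is any topological space homeomorphic to the ladder surface. The theorem determines all
uncountable subgroups `G` of `GL(2, ℝ)` which are the Veech group of a translation structure on
`S` (no completeness, area or tameness condition): up to conjugation by a matrix of positive
determinant they are the groups

* `P_A` of all upper triangular matrices `(a, b; 0, d)` with `a ∈ A`, `a d > 0`,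
* `U_A` of all upper triangular matrices `(a, b; 0, d)` with `a ∈ A`, `a d > 0`, `|d| = 1`,
* `S` of all diagonal matrices `(1, 0; 0, d)` with `d > 0`,
* `± S`,

where `A` is any discrete subgroup of the multiplicative group of `ℝ`.
-/

open Set Filter Topology

namespace Pool.Agent.Results.MP_7193b8_gt.UncountableLadderVeech

open LadderVeech

/-- **The uncountable Veech groups of the ladder surface.** -/
theorem result {S : Type*} [TopologicalSpace S] (e : S ≃ₜ Ladder) (G : Subgroup (GL (Fin 2) ℝ))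
    (hG : ¬ (G : Set (GL (Fin 2) ℝ)).Countable) :
    (∃ ω : TranslationStructure S, veechGroup ω = G) ↔
      ∃ C : GL (Fin 2) ℝ, 0 < Matrix.det (C : Matrix (Fin 2) (Fin 2) ℝ) ∧
        ((∃ A : Subgroup ℝˣ, (∃ U ∈ 𝓝 (1 : ℝ), ∀ a ∈ A, (a : ℝ) ∈ U → a = 1) ∧
            ((fun g => C * g * C⁻¹) '' (G : Set (GL (Fin 2) ℝ)) =
                {g | g 1 0 = 0 ∧ (∃ a ∈ A, g 0 0 = (a : ℝ)) ∧ 0 < g 0 0 * g 1 1} ∨
              (fun g => C * g * C⁻¹) '' (G : Set (GL (Fin 2) ℝ)) =
                {g | g 1 0 = 0 ∧ (∃ a ∈ A, g 0 0 = (a : ℝ)) ∧ 0 < g 0 0 * g 1 1 ∧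
                  |g 1 1| = 1})) ∨
          (fun g => C * g * C⁻¹) '' (G : Set (GL (Fin 2) ℝ)) =
            {g | g 1 0 = 0 ∧ g 0 1 = 0 ∧ g 0 0 = 1 ∧ 0 < g 1 1} ∨
          (fun g => C * g * C⁻¹) '' (G : Set (GL (Fin 2) ℝ)) =
            {g | g 1 0 = 0 ∧ g 0 1 = 0 ∧ |g 0 0| = 1 ∧ 0 < g 0 0 * g 1 1}) := by
  constructor
  · rintro ⟨ω, rfl⟩
    have h1 := veechGroup_transport e ω
    obtain ⟨C, hC, hin⟩ := necessity (ω.transport e) (by rw [h1]; exact hG)
    rw [h1] at hin
    exact ⟨C, by rw [Matrix.det_fin_two]; exact hC, hin⟩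
  · rintro ⟨C, hC, hin⟩
    rw [Matrix.det_fin_two] at hC
    obtain ⟨ω, hω⟩ := sufficiency (G := G) hC hin
    exact ⟨ω.transport e.symm, by rw [veechGroup_transport]; exact hω⟩

end Pool.Agent.Results.MP_7193b8_gt.UncountableLadderVeech
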